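import Mathlib

set_option autoImplicit false

namespace Pool.Agent.Work.MP_d39bc3_gt

open MeasureTheory MeasureTheory.Measure

variable {E : Type} [NormedAddCommGroup E] [NormedSpace ℝ E]

/-- `Om` is a strictly convex domain: open, nonempty, convex, with strictly convex closure (so the
boundary contains no segment). -/
def IsStrictlyConvexDomain (Om : Set E) : Prop :=
  IsOpen Om ∧ Om.Nonempty ∧ Convex ℝ Om ∧ StrictConvex ℝ (closure Om)

/-- The boundary of `Om` is smooth: near each boundary point `Om` is given by an inequality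
`rho < 0` and its boundary by `rho = 0`, where `rho` is a smooth function whose derivative does not
vanish. -/
def HasSmoothBoundary (Om : Set E) : Prop :=
  ∀ x ∈ frontier Om, ∃ U : Set E, IsOpen U ∧ x ∈ U ∧
    ∃ rho : E → ℝ, ContDiffOn ℝ (⊤ : ℕ∞) rho U ∧ (∀ y ∈ U, fderiv ℝ rho y ≠ 0) ∧
      Om ∩ U = {y ∈ U | rho y < 0} ∧ frontier Om ∩ U = {y ∈ U | rho y = 0}

/-- The section `(x + M) ∩ Om`. -/
def slice (Om : Set E) (M : Submodule ℝ E) (x : E) : Set E :=
  {y | y ∈ Om ∧ y - x ∈ M}

/-- The centroid of a subset `S` of an `n`-dimensional affine subspace, with respect to the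
`n`-dimensional Hausdorff measure. -/
noncomputable def centroid [MeasurableSpace E] [BorelSpace E] (n : ℕ) (S : Set E) : E :=
  (μH[(n : ℝ)] S).toReal⁻¹ • ∫ y in S, y ∂μH[(n : ℝ)]

/-- The section-centroid collinearity property of `Om` in an `(n + 1)`-dimensional space: for
every linear subspace `M` of dimension `n` for which the sections are bounded, the centroids of all
the sections `(x + M) ∩ Om` that meet the interior of `Om` are well defined (the section has
positive and finite measure) and lie on a single line. -/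
def SCCP [MeasurableSpace E] [BorelSpace E] (n : ℕ) (Om : Set E) : Prop :=
  ∀ M : Submodule ℝ E, Module.finrank ℝ M = n →
    (∀ x, Bornology.IsBounded (slice Om M x)) →
    ∃ a v : E, v ≠ 0 ∧ ∀ x, (slice (interior Om) M x).Nonempty →
      0 < μH[(n : ℝ)] (slice Om M x) ∧ μH[(n : ℝ)] (slice Om M x) < ⊤ ∧
      ∃ s : ℝ, centroid n (slice Om M x) = a + s • v

/-- `S` is an ellipsoid: in suitable affine coordinates it is the unit sphere. -/
def IsEllipsoid (n : ℕ) (S : Set E) : Prop :=
  ∃ T : E ≃ᵃ[ℝ] (Fin (n + 1) → ℝ), ∀ x, x ∈ S ↔ ∑ i, T x i ^ 2 = 1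

/-- `S` is an (elliptic) paraboloid: in suitable affine coordinates it is the standard one. -/
def IsParaboloid (n : ℕ) (S : Set E) : Prop :=
  ∃ T : E ≃ᵃ[ℝ] (Fin (n + 1) → ℝ), ∀ x, x ∈ S ↔ T x 0 = ∑ i : Fin n, T x i.succ ^ 2

/-- `S` is one sheet of a two-sheeted hyperboloid: in suitable affine coordinates it is the
standard one. -/
def IsHyperboloidSheet (n : ℕ) (S : Set E) : Prop :=
  ∃ T : E ≃ᵃ[ℝ] (Fin (n + 1) → ℝ), ∀ x, x ∈ S ↔
    0 < T x 0 ∧ T x 0 ^ 2 = 1 + ∑ i : Fin n, T x i.succ ^ 2

end Pool.Agent.Work.MP_d39bc3_gt
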