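import Mathlib
import Pool.Agent.Work.MP_d39bc3_gt.Defs

set_option autoImplicit false

namespace Pool.Agent.Work.MP_d39bc3_gt

open MeasureTheory MeasureTheory.Measure Set

/-- Euclidean space of dimension `n + 1`. -/
abbrev Sp (n : ℕ) : Type := EuclideanSpace ℝ (Fin (n + 1))

variable {n : ℕ}

/-- The domain `x_i > 0`, `∏ x_i > 1`. -/
def Om (n : ℕ) : Set (Sp n) := {x | (∀ i, 0 < x i) ∧ 1 < ∏ i, x i}

theorem isOpen_Om : IsOpen (Om n) := by
  have h1 : IsOpen {x : Sp n | ∀ i, 0 < x i} := by
    have : {x : Sp n | ∀ i, 0 < x i} = ⋂ i, {x : Sp n | 0 < x i} := by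
      ext x; simp
    rw [this]
    exact isOpen_iInter_of_finite fun i => isOpen_lt continuous_const (by fun_prop)
  have h2 : IsOpen {x : Sp n | 1 < ∏ i, x i} :=
    isOpen_lt continuous_const (by fun_prop)
  exact h1.inter h2

/-- A linear involution that preserves a hyperplane `M` preserves the Hausdorff measure on
every slice. -/
theorem map_restrict_slice (O : Set (Sp n)) (hO : IsOpen O) (M : Submodule ℝ (Sp n))
    (hM : Module.finrank ℝ M = n)
    (σ : Sp n ≃L[ℝ] Sp n) (hσ : ∀ y, σ (σ y) = y) (hσM : ∀ y ∈ M, σ y ∈ M)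
    (hσO : ∀ y ∈ O, σ y ∈ O) (x : Sp n) (hσx : σ x - x ∈ M) :
    Measure.map σ ((μH[(n : ℝ)]).restrict (slice O M x)) =
      (μH[(n : ℝ)]).restrict (slice O M x) := by
  classical
  -- the isometric embedding of `M` on `x + M`
  let e : M → Sp n := fun m => x + m
  have he : Isometry e := by
    have h1 : Isometry (fun y : Sp n => x + y) := isometry_add_left x
    exact h1.comp isometry_subtype_coe
  have hemb : MeasurableEmbedding e := he.isClosedEmbedding.measurableEmbedding
  -- the linear map on `M`
  let τ0 : M →ₗ[ℝ] M := (σ : Sp n →ₗ[ℝ] Sp n).restrict hσM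
  have hτ0 : τ0 ∘ₗ τ0 = LinearMap.id := by
    ext m
    simp [τ0, LinearMap.restrict_apply, hσ]
  have hdet : LinearMap.det τ0 * LinearMap.det τ0 = 1 := by
    rw [← LinearMap.det_comp, hτ0, LinearMap.det_id]
  have hdetabs : |LinearMap.det τ0| = 1 := by
    have : |LinearMap.det τ0| * |LinearMap.det τ0| = 1 := by
      rw [← abs_mul, hdet, abs_one]
    nlinarith [abs_nonneg (LinearMap.det τ0)]
  have hdet0 : LinearMap.det τ0 ≠ 0 := by
    intro h
    rw [h] at hdet
    simp at hdet
  let τ : M → M := fun m => ⟨σ x - x, hσx⟩ + τ0 m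
  have hcomm : ∀ m, e (τ m) = σ (e m) := by
    intro m
    simp only [e, τ, τ0, LinearMap.restrict_apply, Submodule.coe_add, map_add]
    change x + (σ x - x + σ (m : Sp n)) = σ x + σ (m : Sp n)
    abel
  have hHaar : IsAddHaarMeasure (μH[(n : ℝ)] : Measure M) := by
    have h := isAddHaarMeasure_hausdorffMeasure (E := M)
    rwa [hM] at h
  have hτ0m : Measure.map τ0 (μH[(n : ℝ)] : Measure M) = μH[(n : ℝ)] := by
    rw [map_linearMap_addHaar_eq_smul_addHaar _ hdet0, abs_inv, hdetabs]
    simp
  have hτcont : Continuous τ := by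
    have : Continuous τ0 := LinearMap.continuous_of_finiteDimensional τ0
    fun_prop
  have hτm : Measure.map τ (μH[(n : ℝ)] : Measure M) = μH[(n : ℝ)] := by
    have h1 : τ = (fun m => (⟨σ x - x, hσx⟩ : M) + m) ∘ τ0 := rfl
    have : Continuous τ0 := LinearMap.continuous_of_finiteDimensional τ0
    rw [h1, ← Measure.map_map (by fun_prop) this.measurable, hτ0m]
    exact map_add_left_eq_self _ _
  -- the slice
  have hSm : MeasurableSet (slice O M x) := by
    have h1 : IsClosed {y : Sp n | y - x ∈ M} :=
      M.closed_of_finiteDimensional.preimage (by fun_prop)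
    exact hO.measurableSet.inter h1.measurableSet
  have hrange : slice O M x ⊆ range e := by
    rintro y ⟨_, hy⟩
    exact ⟨⟨y - x, hy⟩, by simp [e]⟩
  have hres : (μH[(n : ℝ)]).restrict (slice O M x) =
      Measure.map e ((μH[(n : ℝ)] : Measure M).restrict (e ⁻¹' slice O M x)) := by
    rw [← hemb.restrict_map, he.map_hausdorffMeasure (Or.inl (Nat.cast_nonneg n)),
      Measure.restrict_restrict hSm, inter_eq_left.2 hrange]
  have hpre : τ ⁻¹' (e ⁻¹' slice O M x) = e ⁻¹' slice O M x := by
    have hmem : ∀ y, y ∈ slice O M x → σ y ∈ slice O M x := by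
      rintro y ⟨hyO, hy⟩
      refine ⟨hσO y hyO, ?_⟩
      have : σ y - x = σ (y - x) + (σ x - x) := by
        rw [map_sub]; abel
      rw [this]
      exact M.add_mem (hσM _ hy) hσx
    ext m
    constructor
    · intro h
      have h' : e (τ m) ∈ slice O M x := h
      rw [hcomm] at h'
      have := hmem _ h'
      rwa [hσ] at this
    · intro h
      change e (τ m) ∈ slice O M x
      rw [hcomm]
      exact hmem _ h
  rw [hres, Measure.map_map σ.continuous.measurable he.continuous.measurable]
  have hfun : (σ : Sp n → Sp n) ∘ e = e ∘ τ := by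
    ext m : 1
    exact (hcomm m).symm
  rw [hfun, ← Measure.map_map he.continuous.measurable hτcont.measurable]
  congr 1
  have := Measure.restrict_map (μ := (μH[(n : ℝ)] : Measure M)) hτcont.measurable
    (hemb.measurable hSm)
  rw [hτm, hpre] at this
  exact this.symm

/-- Slices of open sets have positive measure, and finite measure if they are bounded. -/
theorem slice_measure (O : Set (Sp n)) (hO : IsOpen O) (M : Submodule ℝ (Sp n))
    (hM : Module.finrank ℝ M = n) (x : Sp n) (hne : (slice O M x).Nonempty)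
    (hb : Bornology.IsBounded (slice O M x)) :
    0 < μH[(n : ℝ)] (slice O M x) ∧ μH[(n : ℝ)] (slice O M x) < ⊤ := by
  let e : M → Sp n := fun m => x + m
  have he : Isometry e := by
    have h1 : Isometry (fun y : Sp n => x + y) := isometry_add_left x
    exact h1.comp isometry_subtype_coe
  have hHaar : IsAddHaarMeasure (μH[(n : ℝ)] : Measure M) := by
    have h := isAddHaarMeasure_hausdorffMeasure (E := M)
    rwa [hM] at h
  have hrange : slice O M x ⊆ range e := by
    rintro y ⟨_, hy⟩
    exact ⟨⟨y - x, hy⟩, by simp [e]⟩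
  have hval : μH[(n : ℝ)] (slice O M x) = μH[(n : ℝ)] (e ⁻¹' slice O M x) := by
    rw [he.hausdorffMeasure_preimage (Or.inl (Nat.cast_nonneg n)), inter_eq_left.2 hrange]
  have hpre : e ⁻¹' slice O M x = e ⁻¹' O := by
    ext m
    constructor
    · exact fun h => h.1
    · exact fun h => ⟨h, by simp [e]⟩
  rw [hval]
  constructor
  · rw [hpre]
    obtain ⟨y, hy, hyM⟩ := hne
    exact (hO.preimage he.continuous).measure_pos (μH[(n : ℝ)] : Measure M)
      ⟨⟨y - x, hyM⟩, by simpa [e] using hy⟩
  · apply Bornology.IsBounded.measure_lt_top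
    exact he.antilipschitz.isBounded_preimage hb

end Pool.Agent.Work.MP_d39bc3_gt
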