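import Mathlib
import Pool.Agent.Work.MP_d39bc3_gt.Sccp

set_option autoImplicit false

namespace Pool.Agent.Work.MP_d39bc3_gt

open MeasureTheory MeasureTheory.Measure Set

variable {n : ℕ}

/-- The involution exchanging the coordinates `u_i x_i` and `u_j x_j`. -/
noncomputable def sig (u : Sp n) (i j : Fin (n + 1)) : Sp n →ₗ[ℝ] Sp n where
  toFun y := WithLp.toLp 2 (fun k => u (Equiv.swap i j k) * y (Equiv.swap i j k) / u k)
  map_add' y z := by
    ext k
    simp
    ring
  map_smul' c y := by
    ext k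
    simp
    ring

theorem sig_apply (u : Sp n) (i j : Fin (n + 1)) (y : Sp n) (k : Fin (n + 1)) :
    sig u i j y k = u (Equiv.swap i j k) * y (Equiv.swap i j k) / u k := rfl

theorem sig_sig (u : Sp n) (hu : ∀ k, u k ≠ 0) (i j : Fin (n + 1)) (y : Sp n) :
    sig u i j (sig u i j y) = y := by
  ext k
  rw [sig_apply, sig_apply, Equiv.swap_apply_def, Equiv.swap_apply_def]
  have h1 := hu k
  have h2 := hu (Equiv.swap i j k)
  rw [show (if (if k = i then j else if k = j then i else k) = i then j
      else if (if k = i then j else if k = j then i else k) = j then i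
      else (if k = i then j else if k = j then i else k)) = k by
    split_ifs <;> simp_all]
  rw [Equiv.swap_apply_def] at h2
  field_simp

theorem sig_sum (u : Sp n) (hu : ∀ k, u k ≠ 0) (i j : Fin (n + 1)) (y : Sp n) :
    ∑ k, u k * sig u i j y k = ∑ k, u k * y k := by
  rw [← Equiv.sum_comp (Equiv.swap i j) (fun k => u k * y k)]
  refine Finset.sum_congr rfl fun k _ => ?_
  rw [sig_apply]
  have := hu k
  field_simp

theorem sig_prod (u : Sp n) (hu : ∀ k, u k ≠ 0) (i j : Fin (n + 1)) (y : Sp n) :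
    ∏ k, sig u i j y k = ∏ k, y k := by
  have h1 : ∀ k, sig u i j y k = (fun k => u k * y k) (Equiv.swap i j k) * (u k)⁻¹ := by
    intro k
    rw [sig_apply]
    rfl
  simp_rw [h1]
  rw [Finset.prod_mul_distrib, Equiv.prod_comp (Equiv.swap i j) (fun k => u k * y k),
    Finset.prod_mul_distrib, mul_comm (∏ k, u k), mul_assoc, ← Finset.prod_mul_distrib]
  simp [hu]

theorem exists_normal (M : Submodule ℝ (Sp n)) (hM : Module.finrank ℝ M = n) :
    ∃ u : Sp n, u ≠ 0 ∧ ∀ y, y ∈ M ↔ ∑ k, u k * y k = 0 := by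
  have h1 : Module.finrank ℝ Mᗮ = 1 := by
    have := Submodule.finrank_add_finrank_orthogonal M
    rw [hM] at this
    simp at this
    omega
  obtain ⟨⟨u, huM⟩, hu0, hu⟩ := finrank_eq_one_iff'.1 h1
  refine ⟨u, fun h => hu0 (Subtype.ext h), fun y => ?_⟩
  have h2 : ∑ k, u k * y k = inner ℝ u y := by
    rw [PiLp.inner_apply]
    refine Finset.sum_congr rfl fun k _ => ?_
    simp [mul_comm]
  rw [h2]
  constructor
  · intro hy
    exact (Submodule.mem_orthogonal' M u).1 huM y hy
  · intro hy
    rw [← Submodule.orthogonal_orthogonal M, Submodule.mem_orthogonal]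
    intro w hw
    obtain ⟨c, hc⟩ := hu ⟨w, hw⟩
    have : w = c • u := by
      have := congrArg Subtype.val hc
      exact this.symm
    rw [this, inner_smul_left, hy, mul_zero]

theorem sccp_Om : SCCP n (Om n) := by
  intro M hM hb
  obtain ⟨u, hu0, huM⟩ := exists_normal M hM
  -- no nonnegative directions in `M`
  have hpos : ∀ d : Sp n, (∀ i, 0 ≤ d i) → d ∈ M → d = 0 := by
    intro d hd hdM
    by_contra hd0
    let x : Sp n := WithLp.toLp 2 (fun _ => 2)
    obtain ⟨C, hC⟩ := (hb x).exists_norm_le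
    have hmem : ∀ s : ℝ, 0 ≤ s → x + s • d ∈ slice (Om n) M x := by
      intro s hs
      refine ⟨⟨fun i => ?_, ?_⟩, ?_⟩
      · have := mul_nonneg hs (hd i)
        simp only [x, PiLp.add_apply, PiLp.smul_apply, smul_eq_mul]
        linarith
      · have h1 : (1 : ℝ) = ∏ i : Fin (n + 1), (1 : ℝ) := by simp
        rw [h1]
        apply Finset.prod_lt_prod_of_nonempty
        · intro i _; norm_num
        · intro i _
          have := mul_nonneg hs (hd i)
          simp only [x, PiLp.add_apply, PiLp.smul_apply, smul_eq_mul]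
          linarith
        · exact Finset.univ_nonempty
      · simpa using M.smul_mem s hdM
    have hdn : 0 < ‖d‖ := norm_pos_iff.2 hd0
    have hs : 0 ≤ (C + ‖x‖ + 1) / ‖d‖ := by
      have hC0 : 0 ≤ C := (norm_nonneg _).trans (hC _ (hmem 0 le_rfl))
      positivity
    have h1 := hC _ (hmem _ hs)
    have h2 : ‖((C + ‖x‖ + 1) / ‖d‖) • d‖ = C + ‖x‖ + 1 := by
      rw [norm_smul, Real.norm_of_nonneg hs]
      field_simp
    have h3 := norm_sub_le (x + ((C + ‖x‖ + 1) / ‖d‖) • d) x
    rw [add_sub_cancel_left, h2] at h3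
    linarith
  have hsingle : ∀ (i : Fin (n + 1)) (a : ℝ), ∑ k, u k * (EuclideanSpace.single i a : Sp n) k
      = u i * a := by
    intro i a
    rw [Finset.sum_eq_single i]
    · simp
    · intro b _ hb
      simp [hb]
    · simp
  have hsign : ∀ i j, 0 < u i * u j := by
    intro i j
    by_contra hij
    rw [not_lt] at hij
    rcases eq_or_ne (u i) 0 with h0 | h0
    · have := hpos (EuclideanSpace.single i 1) (fun k => by
        simp only [PiLp.single_apply]; split_ifs <;> norm_num)
        ((huM _).2 (by rw [hsingle, h0]; simp))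
      have h1 := congrArg (fun v : Sp n => v i) this
      simp at h1
    rcases eq_or_ne (u j) 0 with h0' | h0'
    · have := hpos (EuclideanSpace.single j 1) (fun k => by
        simp only [PiLp.single_apply]; split_ifs <;> norm_num)
        ((huM _).2 (by rw [hsingle, h0']; simp))
      have h1 := congrArg (fun v : Sp n => v j) this
      simp at h1
    have hlt : u i * u j < 0 := lt_of_le_of_ne hij (mul_ne_zero h0 h0')
    have hne : i ≠ j := by
      rintro rfl
      nlinarith [mul_self_nonneg (u i)]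
    have := hpos (EuclideanSpace.single i |u j| + EuclideanSpace.single j |u i|) (fun k => by
        simp only [PiLp.add_apply, PiLp.single_apply]
        split_ifs <;> positivity)
        ((huM _).2 (by
          simp only [PiLp.add_apply, mul_add, Finset.sum_add_distrib]
          rw [hsingle, hsingle]
          rcases lt_or_gt_of_ne h0 with h | h
          · have h' : 0 < u j := by nlinarith
            rw [abs_of_pos h', abs_of_neg h]; ring
          · have h' : u j < 0 := by nlinarith
            rw [abs_of_neg h', abs_of_pos h]; ring))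
    have h1 := congrArg (fun v : Sp n => v i) this
    simp [hne] at h1
    exact h0' h1
  have hu : ∀ k, u k ≠ 0 := fun k h => by
    have := hsign k k
    rw [h] at this
    simp at this
  refine ⟨0, WithLp.toLp 2 (fun i => (u i)⁻¹), ?_, ?_⟩
  · intro h
    have h1 := congrArg (fun v : Sp n => v 0) h
    simp at h1
    exact hu 0 h1
  intro x hx
  rw [isOpen_Om.interior_eq] at hx
  refine ⟨(slice_measure _ isOpen_Om M hM x hx (hb x)).1,
    (slice_measure _ isOpen_Om M hM x hx (hb x)).2, ?_⟩
  set I : Sp n := ∫ y in slice (Om n) M x, y ∂μH[(n : ℝ)] with hI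
  have hfix : ∀ i j, sig u i j I = I := by
    intro i j
    let σ0 : Sp n ≃ₗ[ℝ] Sp n := LinearEquiv.ofInvolutive (sig u i j) (sig_sig u hu i j)
    let σ : Sp n ≃L[ℝ] Sp n := σ0.toContinuousLinearEquiv
    have hσ : ∀ y, σ y = sig u i j y := fun y => rfl
    have hmap := map_restrict_slice (Om n) isOpen_Om M hM σ
      (fun y => by rw [hσ, hσ, sig_sig u hu])
      (fun y hy => by
        rw [huM] at hy ⊢
        rw [← hy]
        exact sig_sum u hu i j y)
      (fun y hy => by
        refine ⟨fun k => ?_, ?_⟩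
        · rw [hσ, sig_apply]
          have h1 := hsign (Equiv.swap i j k) k
          have h2 := hy.1 (Equiv.swap i j k)
          have h3 : 0 < u (Equiv.swap i j k) / u k := by
            rcases lt_or_gt_of_ne (hu k) with h | h
            · have : u (Equiv.swap i j k) < 0 := by nlinarith
              exact div_pos_of_neg_of_neg this h
            · have : 0 < u (Equiv.swap i j k) := by nlinarith
              exact div_pos this h
          rw [mul_div_right_comm]
          exact mul_pos h3 h2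
        · have : ∏ k, (σ y) k = ∏ k, y k := sig_prod u hu i j y
          rw [this]
          exact hy.2) x
      (by
        rw [huM]
        simp only [PiLp.sub_apply, mul_sub, Finset.sum_sub_distrib]
        have : ∑ k, u k * (σ x) k = ∑ k, u k * x k := sig_sum u hu i j x
        rw [this, sub_self])
    have h1 : σ I = ∫ y in slice (Om n) M x, σ y ∂μH[(n : ℝ)] := by
      rw [hI]
      exact (ContinuousLinearEquiv.integral_comp_comm σ (fun y => y)).symm
    have h2 : ∫ y in slice (Om n) M x, σ y ∂μH[(n : ℝ)] = I := by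
      rw [hI]
      conv_rhs => rw [← hmap]
      exact (σ.toHomeomorph.measurableEmbedding.integral_map (fun y => y)).symm
    rw [← hσ, h1, h2]
  have hcoord : ∀ i j, u i * I i = u j * I j := by
    intro i j
    have h1 := congrArg (fun v : Sp n => v i) (hfix i j)
    simp only [sig_apply, Equiv.swap_apply_left] at h1
    rw [div_eq_iff (hu i)] at h1
    linarith
  refine ⟨(μH[(n : ℝ)] (slice (Om n) M x)).toReal⁻¹ * (u 0 * I 0), ?_⟩
  ext i
  simp only [centroid, PiLp.smul_apply, smul_eq_mul, zero_add]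
  rw [← hI, hcoord 0 i]
  have := hu i
  field_simp

/-! ### Convexity -/

theorem log_prod_pos {x : Sp n} (hx : ∀ i, 0 < x i) :
    Real.log (∏ i, x i) = ∑ i, Real.log (x i) :=
  Real.log_prod (fun i _ => (hx i).ne')

/-- Strict midpoint-type inequality for the product. -/
theorem prod_gt_one {x y : Sp n} (hx : ∀ i, 0 < x i) (hy : ∀ i, 0 < y i)
    (hx1 : 1 ≤ ∏ i, x i) (hy1 : 1 ≤ ∏ i, y i) (hxy : x ≠ y) {a b : ℝ} (ha : 0 < a) (hb : 0 < b)
    (hab : a + b = 1) : 1 < ∏ i, (a • x + b • y) i := by
  have hpos : ∀ i, 0 < (a • x + b • y) i := by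
    intro i
    have h1 := mul_pos ha (hx i)
    have h2 := mul_pos hb (hy i)
    simp only [PiLp.add_apply, PiLp.smul_apply, smul_eq_mul]
    linarith
  have hprod : 0 < ∏ i, (a • x + b • y) i := Finset.prod_pos fun i _ => hpos i
  have hlogx : 0 ≤ ∑ i, Real.log (x i) := by
    rw [← log_prod_pos hx]
    exact Real.log_nonneg hx1
  have hlogy : 0 ≤ ∑ i, Real.log (y i) := by
    rw [← log_prod_pos hy]
    exact Real.log_nonneg hy1
  obtain ⟨j, hj⟩ : ∃ j, x j ≠ y j := by
    by_contra h
    push Not at h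
    exact hxy (by ext i; exact h i)
  have hlt : ∑ i, (a * Real.log (x i) + b * Real.log (y i)) <
      ∑ i, Real.log ((a • x + b • y) i) := by
    apply Finset.sum_lt_sum
    · intro i _
      have := strictConcaveOn_log_Ioi.concaveOn.2 (mem_Ioi.2 (hx i)) (mem_Ioi.2 (hy i)) ha.le hb.le
        hab
      simpa using this
    · refine ⟨j, Finset.mem_univ _, ?_⟩
      have := strictConcaveOn_log_Ioi.2 (mem_Ioi.2 (hx j)) (mem_Ioi.2 (hy j)) hj ha hb hab
      simpa using this
  rw [Finset.sum_add_distrib, ← Finset.mul_sum, ← Finset.mul_sum] at hlt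
  rw [← Real.log_pos_iff hprod.le, log_prod_pos hpos]
  have h1 := mul_nonneg ha.le hlogx
  have h2 := mul_nonneg hb.le hlogy
  linarith

/-- The closure of the domain. -/
theorem closure_Om : closure (Om n) = {x | (∀ i, 0 < x i) ∧ 1 ≤ ∏ i, x i} := by
  apply Subset.antisymm
  · have hcl : IsClosed {x : Sp n | (∀ i, 0 ≤ x i) ∧ 1 ≤ ∏ i, x i} := by
      have h1 : IsClosed {x : Sp n | ∀ i, 0 ≤ x i} := by
        have : {x : Sp n | ∀ i, 0 ≤ x i} = ⋂ i, {x : Sp n | 0 ≤ x i} := by
          ext x; simp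
        rw [this]
        exact isClosed_iInter fun i => isClosed_le continuous_const (by fun_prop)
      have h2 : IsClosed {x : Sp n | 1 ≤ ∏ i, x i} :=
        isClosed_le continuous_const (by fun_prop)
      exact h1.inter h2
    have h1 := closure_minimal
      (show Om n ⊆ {x : Sp n | (∀ i, 0 ≤ x i) ∧ 1 ≤ ∏ i, x i} from
        fun x hx => ⟨fun i => (hx.1 i).le, hx.2.le⟩) hcl
    intro x hx
    obtain ⟨h2, h3⟩ := h1 hx
    refine ⟨fun i => lt_of_le_of_ne (h2 i) fun h0 => ?_, h3⟩
    have : ∏ i, x i = 0 := Finset.prod_eq_zero (Finset.mem_univ i) h0.symm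
    rw [this] at h3
    norm_num at h3
  · rintro x ⟨hx, hx1⟩
    rw [mem_closure_iff_seq_limit]
    refine ⟨fun k => (1 + 1 / ((k : ℝ) + 1)) • x, fun k => ⟨fun i => ?_, ?_⟩, ?_⟩
    · have := hx i
      simp only [PiLp.smul_apply, smul_eq_mul]
      positivity
    · simp only [PiLp.smul_apply, smul_eq_mul]
      rw [Finset.prod_mul_distrib, Finset.prod_const, Finset.card_univ, Fintype.card_fin]
      have h1 : (1 : ℝ) < (1 + 1 / ((k : ℝ) + 1)) ^ (n + 1) := by
        apply one_lt_pow₀ _ (Nat.succ_ne_zero n)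
        have : (0 : ℝ) < 1 / ((k : ℝ) + 1) := by positivity
        linarith
      nlinarith
    · have h1 : Filter.Tendsto (fun k : ℕ => (1 + 1 / ((k : ℝ) + 1)) • x) Filter.atTop
          (nhds ((1 + 0 : ℝ) • x)) :=
        (tendsto_const_nhds.add tendsto_one_div_add_atTop_nhds_zero_nat).smul_const x
      simpa using h1

theorem frontier_Om : frontier (Om n) = {x | (∀ i, 0 < x i) ∧ ∏ i, x i = 1} := by
  rw [frontier, isOpen_Om.interior_eq, closure_Om]
  ext x
  constructor
  · rintro ⟨⟨h1, h2⟩, h3⟩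
    refine ⟨h1, le_antisymm ?_ h2⟩
    by_contra h
    exact h3 ⟨h1, not_le.1 h⟩
  · rintro ⟨h1, h2⟩
    exact ⟨⟨h1, h2.ge⟩, fun h3 => h3.2.ne h2.symm⟩

theorem isStrictlyConvexDomain_Om : IsStrictlyConvexDomain (Om n) := by
  refine ⟨isOpen_Om, ?_, ?_, ?_⟩
  · refine ⟨WithLp.toLp 2 (fun _ => 2), fun i => by simp, ?_⟩
    simp only
    rw [Finset.prod_const, Finset.card_univ, Fintype.card_fin]
    exact one_lt_pow₀ (by norm_num) (Nat.succ_ne_zero n)
  · intro x hx y hy a b ha hb hab
    rcases eq_or_ne x y with rfl | hxy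
    · rw [← add_smul, hab, one_smul]; exact hx
    rcases ha.eq_or_lt with rfl | ha'
    · simp only [zero_add] at hab
      subst hab
      simpa using hy
    rcases hb.eq_or_lt with rfl | hb'
    · simp only [add_zero] at hab
      subst hab
      simpa using hx
    refine ⟨fun i => ?_, prod_gt_one hx.1 hy.1 hx.2.le hy.2.le hxy ha' hb' hab⟩
    have h1 := mul_pos ha' (hx.1 i)
    have h2 := mul_pos hb' (hy.1 i)
    simp only [PiLp.add_apply, PiLp.smul_apply, smul_eq_mul]
    linarith
  · intro x hx y hy hxy a b ha hb hab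
    rw [closure_Om] at hx hy
    apply interior_mono subset_closure
    rw [isOpen_Om.interior_eq]
    refine ⟨fun i => ?_, prod_gt_one hx.1 hy.1 hx.2 hy.2 hxy ha hb hab⟩
    have h1 := mul_pos ha (hx.1 i)
    have h2 := mul_pos hb (hy.1 i)
    simp only [PiLp.add_apply, PiLp.smul_apply, smul_eq_mul]
    linarith

/-! ### Smoothness -/

theorem hasSmoothBoundary_Om : HasSmoothBoundary (Om n) := by
  intro x hx
  rw [frontier_Om] at hx
  have hopen : IsOpen {x : Sp n | ∀ i, 0 < x i} := by
    have : {x : Sp n | ∀ i, 0 < x i} = ⋂ i, {x : Sp n | 0 < x i} := by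
      ext x; simp
    rw [this]
    exact isOpen_iInter_of_finite fun i => isOpen_lt continuous_const (by fun_prop)
  have hcd : ContDiff ℝ (⊤ : ℕ∞) (fun y : Sp n => 1 - ∏ i, y i) := by
    fun_prop
  refine ⟨{x : Sp n | ∀ i, 0 < x i}, hopen, hx.1, fun y => 1 - ∏ i, y i, hcd.contDiffOn,
    fun y hy h0 => ?_, ?_, ?_⟩
  · have h1 : HasFDerivAt (fun y : Sp n => 1 - ∏ i, y i)
        (fderiv ℝ (fun y : Sp n => 1 - ∏ i, y i) y) ((1 : ℝ) • y) := by
      rw [one_smul]
      exact (hcd.differentiable (by simp) y).hasFDerivAt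
    have h2 : HasDerivAt (fun s : ℝ => s • y) ((1 : ℝ) • y) 1 := (hasDerivAt_id 1).smul_const y
    have h3 := h1.comp_hasDerivAt (1 : ℝ) h2
    rw [h0] at h3
    have h4 : HasDerivAt (fun s : ℝ => 1 - s ^ (n + 1) * ∏ i, y i)
        (0 - ((n + 1 : ℕ) * (1 : ℝ) ^ (n + 1 - 1)) * ∏ i, y i) 1 :=
      (hasDerivAt_const (1 : ℝ) (1 : ℝ)).sub ((hasDerivAt_pow (n + 1) (1 : ℝ)).mul_const _)
    have h5 : ((fun y : Sp n => 1 - ∏ i, y i) ∘ fun s : ℝ => s • y) =
        fun s : ℝ => 1 - s ^ (n + 1) * ∏ i, y i := by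
      ext s
      simp [Finset.prod_mul_distrib]
    rw [h5] at h3
    have h6 := h3.unique h4
    have h7 : 0 < ∏ i, y i := Finset.prod_pos fun i _ => hy i
    simp at h6
    rcases h6 with h6 | h6
    · have : (0 : ℝ) ≤ n := Nat.cast_nonneg n
      linarith
    · exact h7.ne' h6
  · ext y
    constructor
    · rintro ⟨hy, hy'⟩
      exact ⟨hy', by have := hy.2; simp only; linarith⟩
    · rintro ⟨hy, hy'⟩
      exact ⟨⟨hy, by simp only at hy'; linarith⟩, hy⟩
  · rw [frontier_Om]
    ext y
    constructor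
    · rintro ⟨hy, hy'⟩
      exact ⟨hy', by have := hy.2; simp only; linarith⟩
    · rintro ⟨hy, hy'⟩
      exact ⟨⟨hy, by simp only at hy'; linarith⟩, hy⟩

/-! ### The boundary is not a quadric -/

/-- No set containing the boundary is the zero set of a quadratic function whose leading part is
`κ y_0 ^ 2 - σ ∑ y_i ^ 2`, up to an affine change of coordinates. -/
theorem not_quadric (hn : 2 ≤ n) (T : Sp n ≃ᵃ[ℝ] (Fin (n + 1) → ℝ)) (κ σ c l0 : ℝ) (hσ : σ ≠ 0)
    (h : ∀ x ∈ frontier (Om n), κ * T x 0 ^ 2 - σ * ∑ i : Fin n, T x i.succ ^ 2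
      + l0 * T x 0 + c = 0) : False := by
  rw [frontier_Om] at h
  -- indices
  let i1 : Fin (n + 1) := ⟨1, by omega⟩
  let i2 : Fin (n + 1) := ⟨2, by omega⟩
  have h01 : (0 : Fin (n + 1)) ≠ i1 := by simp [i1, Fin.ext_iff]
  have h02 : (0 : Fin (n + 1)) ≠ i2 := by simp [i2, Fin.ext_iff]
  have h12 : i1 ≠ i2 := by simp [i1, i2]
  let L := T.linear
  let p0 : Sp n := WithLp.toLp 2 (fun k => if k = 0 ∨ k = i1 ∨ k = i2 then 0 else 1)
  let eu : Sp n := EuclideanSpace.single 0 1 + EuclideanSpace.single i1 1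
  let ew : Sp n := EuclideanSpace.single i2 1
  let g : ℝ → Sp n := fun s => p0 + (s • eu + (s ^ 2)⁻¹ • ew)
  have hg : ∀ s : ℝ, 0 < s → (∀ i, 0 < (g s) i) ∧ ∏ i, (g s) i = 1 := by
    intro s hs
    have hval : ∀ k, (g s) k = if k = 0 then s else if k = i1 then s else
        if k = i2 then (s ^ 2)⁻¹ else 1 := by
      intro k
      simp only [g, p0, eu, ew, PiLp.add_apply, PiLp.smul_apply, PiLp.single_apply, smul_eq_mul]
      by_cases hk0 : k = 0
      · subst hk0; simp [h01, h02]
      by_cases hk1 : k = i1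
      · subst hk1; simp [h01.symm, h12]
      by_cases hk2 : k = i2
      · subst hk2; simp [h02.symm, h12.symm]
      simp [hk0, hk1, hk2]
    constructor
    · intro i
      rw [hval]
      split_ifs <;> positivity
    · simp_rw [hval]
      rw [← Finset.mul_prod_erase Finset.univ _ (Finset.mem_univ (0 : Fin (n + 1))),
        ← Finset.mul_prod_erase (Finset.univ.erase 0) _
          (Finset.mem_erase.2 ⟨h01.symm, Finset.mem_univ i1⟩),
        ← Finset.mul_prod_erase ((Finset.univ.erase 0).erase i1) _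
          (Finset.mem_erase.2 ⟨h12.symm, Finset.mem_erase.2 ⟨h02.symm, Finset.mem_univ i2⟩⟩),
        Finset.prod_eq_one]
      · simp [h01.symm, h02.symm, h12.symm]
        field_simp
      · intro k hk
        simp only [Finset.mem_erase, Finset.mem_univ, and_true] at hk
        simp [hk.1, hk.2.1, hk.2.2]
  set a := T p0 with ha
  set u := L eu with hu
  set w := L ew with hw
  have hTg : ∀ s : ℝ, T (g s) = a + (s • u + (s ^ 2)⁻¹ • w) := by
    intro s
    have : g s = (s • eu + (s ^ 2)⁻¹ • ew) +ᵥ p0 := by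
      simp only [g, vadd_eq_add]
      abel
    rw [this, AffineEquiv.map_vadd, vadd_eq_add, map_add, map_smul, map_smul]
    exact add_comm (s • u + (s ^ 2)⁻¹ • w) a
  -- abbreviations
  let q : (Fin (n + 1) → ℝ) → ℝ := fun y => κ * y 0 ^ 2 - σ * ∑ i : Fin n, y i.succ ^ 2
  let B : (Fin (n + 1) → ℝ) → (Fin (n + 1) → ℝ) → ℝ := fun y z => κ * (y 0 * z 0) - σ * ∑ i : Fin n, y i.succ * z i.succ
  have hexp : ∀ s t : ℝ, q (a + (s • u + t • w)) = q a + s ^ 2 * q u + t ^ 2 * q w
      + 2 * s * B a u + 2 * t * B a w + 2 * s * t * B u w := by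
    intro s t
    simp only [q, B, Pi.add_apply, Pi.smul_apply, smul_eq_mul]
    have : ∑ i : Fin n, (a i.succ + (s * u i.succ + t * w i.succ)) ^ 2 =
        (∑ i : Fin n, a i.succ ^ 2) + s ^ 2 * (∑ i : Fin n, u i.succ ^ 2)
        + t ^ 2 * (∑ i : Fin n, w i.succ ^ 2) + 2 * s * (∑ i : Fin n, a i.succ * u i.succ)
        + 2 * t * (∑ i : Fin n, a i.succ * w i.succ)
        + 2 * s * t * (∑ i : Fin n, u i.succ * w i.succ) := by
      simp only [Finset.mul_sum, ← Finset.sum_add_distrib]
      refine Finset.sum_congr rfl fun i _ => ?_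
      ring
    rw [this]
    ring
  have hpoly : ∀ s : ℝ, 0 < s → q w + (2 * B a w + l0 * w 0) * s ^ 2 + 2 * B u w * s ^ 3 +
      (q a + l0 * a 0 + c) * s ^ 4 + (2 * B a u + l0 * u 0) * s ^ 5 + q u * s ^ 6 = 0 := by
    intro s hs
    have h1 := h (g s) (hg s hs)
    rw [hTg] at h1
    have h2 : q (a + (s • u + (s ^ 2)⁻¹ • w)) + l0 * (a + (s • u + (s ^ 2)⁻¹ • w)) 0 + c = 0 := h1
    rw [hexp] at h2
    simp only [Pi.add_apply, Pi.smul_apply, smul_eq_mul] at h2
    have h3 : s ^ 4 * (q a + s ^ 2 * q u + ((s ^ 2)⁻¹) ^ 2 * q w + 2 * s * B a u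
        + 2 * (s ^ 2)⁻¹ * B a w + 2 * s * (s ^ 2)⁻¹ * B u w
        + l0 * (a 0 + (s * u 0 + (s ^ 2)⁻¹ * w 0)) + c) = 0 := by
      rw [h2, mul_zero]
    have hs0 : s ≠ 0 := hs.ne'
    field_simp at h3
    linarith
  -- polynomial identity
  let P : Polynomial ℝ := Polynomial.C (q w) + Polynomial.C (2 * B a w + l0 * w 0) * Polynomial.X ^ 2
    + Polynomial.C (2 * B u w) * Polynomial.X ^ 3
    + Polynomial.C (q a + l0 * a 0 + c) * Polynomial.X ^ 4
    + Polynomial.C (2 * B a u + l0 * u 0) * Polynomial.X ^ 5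
    + Polynomial.C (q u) * Polynomial.X ^ 6
  have hP : P = 0 := by
    apply Polynomial.eq_zero_of_infinite_isRoot
    apply (Set.Ioi_infinite (0 : ℝ)).mono
    intro s hs
    simp only [Set.mem_ofPred_eq, Polynomial.IsRoot, P, Polynomial.eval_add, Polynomial.eval_mul,
      Polynomial.eval_C, Polynomial.eval_pow, Polynomial.eval_X]
    exact hpoly s hs
  have hqw : q w = 0 := by
    have := congrArg (fun p => Polynomial.coeff p 0) hP
    simp only [P, Polynomial.coeff_add, Polynomial.coeff_C_mul, Polynomial.coeff_X_pow,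
      Polynomial.coeff_C, Polynomial.coeff_zero] at this
    norm_num at this
    exact this
  have hBuw : B u w = 0 := by
    have := congrArg (fun p => Polynomial.coeff p 3) hP
    simp only [P, Polynomial.coeff_add, Polynomial.coeff_C_mul, Polynomial.coeff_X_pow,
      Polynomial.coeff_C, Polynomial.coeff_zero] at this
    norm_num at this
    exact this
  have hqu : q u = 0 := by
    have := congrArg (fun p => Polynomial.coeff p 6) hP
    simp only [P, Polynomial.coeff_add, Polynomial.coeff_C_mul, Polynomial.coeff_X_pow,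
      Polynomial.coeff_C, Polynomial.coeff_zero] at this
    norm_num at this
    exact this
  -- the combination `z = w_0 u - u_0 w`
  have hinj : Function.Injective L := T.linear.injective
  have hkey : ∀ z : Fin (n + 1) → ℝ, z 0 = 0 → q z = 0 → z = 0 := by
    intro z hz0 hqz
    simp only [q, hz0] at hqz
    have h1 : ∑ i : Fin n, z i.succ ^ 2 = 0 := by
      have : σ * ∑ i : Fin n, z i.succ ^ 2 = 0 := by linarith
      exact (mul_eq_zero.1 this).resolve_left hσ
    rw [Finset.sum_eq_zero_iff_of_nonneg (fun i _ => sq_nonneg _)] at h1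
    ext k
    refine Fin.cases ?_ (fun i => ?_) k
    · simpa using hz0
    · have := h1 i (Finset.mem_univ i)
      simpa using this
  have hz : w 0 • u - u 0 • w = 0 := by
    apply hkey
    · simp only [Pi.sub_apply, Pi.smul_apply, smul_eq_mul]
      ring
    · have : q (w 0 • u - u 0 • w) = w 0 ^ 2 * q u + u 0 ^ 2 * q w - 2 * w 0 * u 0 * B u w := by
        simp only [q, B, Pi.sub_apply, Pi.smul_apply, smul_eq_mul]
        have : ∑ i : Fin n, (w 0 * u i.succ - u 0 * w i.succ) ^ 2 =
            w 0 ^ 2 * (∑ i : Fin n, u i.succ ^ 2) + u 0 ^ 2 * (∑ i : Fin n, w i.succ ^ 2)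
            - 2 * w 0 * u 0 * (∑ i : Fin n, u i.succ * w i.succ) := by
          simp only [Finset.mul_sum, ← Finset.sum_add_distrib, ← Finset.sum_sub_distrib]
          refine Finset.sum_congr rfl fun i _ => ?_
          ring
        rw [this]
        ring
      rw [this, hqu, hqw, hBuw]
      ring
  have hlin : w 0 • eu - u 0 • ew = 0 := by
    apply hinj
    rw [map_sub, map_smul, map_smul, map_zero]
    exact hz
  have hw0 : w 0 = 0 := by
    have := congrArg (fun v : Sp n => v 0) hlin
    simpa [eu, ew, h01, h02] using this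
  have hww : w = 0 := hkey w hw0 hqw
  have hew : ew = 0 := hinj (by rw [map_zero]; exact hww)
  have := congrArg (fun v : Sp n => v i2) hew
  simp [ew] at this

theorem not_ellipsoid (hn : 2 ≤ n) : ¬ IsEllipsoid n (frontier (Om n)) := by
  rintro ⟨T, hT⟩
  refine not_quadric hn T 1 (-1) (-1) 0 (by norm_num) fun x hx => ?_
  have hy' := (hT x).1 hx
  rw [Fin.sum_univ_succ] at hy'
  linarith

theorem not_paraboloid (hn : 2 ≤ n) : ¬ IsParaboloid n (frontier (Om n)) := by
  rintro ⟨T, hT⟩
  refine not_quadric hn T 0 1 0 1 (by norm_num) fun x hx => ?_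
  have hy' := (hT x).1 hx
  linarith

theorem not_hyperboloidSheet (hn : 2 ≤ n) : ¬ IsHyperboloidSheet n (frontier (Om n)) := by
  rintro ⟨T, hT⟩
  refine not_quadric hn T 1 1 (-1) 0 (by norm_num) fun x hx => ?_
  have hy' := ((hT x).1 hx).2
  linarith

end Pool.Agent.Work.MP_d39bc3_gt
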